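import Pool.Agent.MP_b1aeef_nt.H82.Core

/-! Reduction of the general case to the core theorem. -/

open Filter Polynomial

namespace Pool.Agent.MP_b1aeef_nt.H82

lemma ev_pos (G : ℚ[X]) (n : ℕ) (h1 : G.natDegree ≤ n) (h2 : 0 < G.coeff n) :
    ∀ᶠ x : ℕ in atTop, 0 < G.eval (x : ℚ) := by
  have hdeg : G.natDegree = n := le_antisymm h1 (le_natDegree_of_ne_zero h2.ne')
  have hlc : G.leadingCoeff = G.coeff n := by rw [leadingCoeff, hdeg]
  rcases Nat.eq_zero_or_pos n with h0 | h0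
  · subst h0
    refine Eventually.of_forall fun x => ?_
    rw [eq_C_of_natDegree_eq_zero hdeg, eval_C]
    exact h2
  · have := (tendsto_atTop_of_leadingCoeff_nonneg G
      (natDegree_pos_iff_degree_pos.1 (by omega)) (by rw [hlc]; exact h2.le)).comp
      (tendsto_natCast_atTop_atTop (R := ℚ))
    exact this.eventually_gt_atTop 0

lemma hasse_top (P : ℚ[X]) (d m : ℕ) (hd : P.natDegree = d) (hm : m ≤ d) (hl : 0 < P.coeff d) :
    (hasseDeriv m P).natDegree ≤ d - m ∧ 0 < (hasseDeriv m P).coeff (d - m) := by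
  refine ⟨hd ▸ natDegree_hasseDeriv_le P m, ?_⟩
  rw [hasseDeriv_coeff, Nat.sub_add_cancel hm]
  have : (0 : ℚ) < (d.choose m : ℕ) := by exact_mod_cast Nat.choose_pos hm
  positivity

lemma ev_ratio (H : ℚ[X]) (e : ℕ) (he : H.natDegree = e) (hl : 0 < H.coeff e) (i j : ℕ) :
    ∀ᶠ x : ℕ in atTop, H.eval ((x + j : ℕ) : ℚ) < 2 * H.eval ((x + i : ℕ) : ℚ) := by
  have h1 : (C 2 * taylor (i : ℚ) H - taylor (j : ℚ) H).natDegree ≤ e := by
    refine (natDegree_sub_le _ _).trans (max_le ((natDegree_C_mul_le _ _).trans ?_) ?_) <;>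
      rw [natDegree_taylor, he]
  have h2 : 0 < (C 2 * taylor (i : ℚ) H - taylor (j : ℚ) H).coeff e := by
    rw [coeff_sub, coeff_C_mul, ← he, coeff_taylor_natDegree, coeff_taylor_natDegree,
      leadingCoeff, he]
    linarith
  filter_upwards [ev_pos _ e h1 h2] with x hx
  rw [eval_sub, eval_mul, eval_C, taylor_eval, taylor_eval] at hx
  push_cast
  linarith

lemma ev_ne (H : ℚ[X]) (e : ℕ) (he : H.natDegree = e) (he1 : 1 ≤ e) (i j : ℕ) (hij : i ≠ j) :
    ∀ᶠ x : ℕ in atTop, H.eval ((x + j : ℕ) : ℚ) ≠ H.eval ((x + i : ℕ) : ℚ) := by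
  have hne : taylor (j : ℚ) H - taylor (i : ℚ) H ≠ 0 := by
    intro h0
    have h1 : ∀ x : ℚ, H.eval (x + j) = H.eval (x + i) := by
      intro x
      have := congrArg (eval x) h0
      rwa [eval_sub, taylor_eval, taylor_eval, eval_zero, sub_eq_zero] at this
    have h2 : ∀ n : ℕ, H.eval ((n : ℚ) * (j - i)) = H.eval 0 := by
      intro n
      induction n with
      | zero => simp
      | succ n ih =>
        rw [← ih]
        have := h1 (n * (j - i) - i)
        push_cast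
        convert this using 2 <;> ring
    have h3 : H - C (H.eval 0) = 0 := by
      apply eq_zero_of_infinite_isRoot
      have hji : (j : ℚ) - i ≠ 0 := sub_ne_zero.2 (by exact_mod_cast hij.symm)
      refine Set.infinite_of_injective_forall_mem (f := fun n : ℕ => (n : ℚ) * (j - i)) ?_ ?_
      · intro a b hab
        exact_mod_cast mul_right_cancel₀ hji hab
      · intro n
        simp [h2 n]
    rw [sub_eq_zero] at h3
    rw [h3, natDegree_C] at he
    omega
  have := (eventually_atTop_not_isRoot _ hne)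
  filter_upwards [(tendsto_natCast_atTop_atTop (R := ℚ)).eventually this] with x hx
  rw [IsRoot, eval_sub, taylor_eval, taylor_eval, sub_eq_zero] at hx
  push_cast
  exact hx

lemma exists_den (P : ℚ[X]) : ∃ D : ℕ, 0 < D ∧ ∀ m, ∃ z : ℤ, (D : ℚ) * P.coeff m = z := by
  refine ⟨∏ m ∈ P.support, (P.coeff m).den, Finset.prod_pos fun m _ => (P.coeff m).den_pos,
    fun m => ?_⟩
  by_cases hm : m ∈ P.support
  · rw [← Finset.mul_prod_erase _ _ hm]
    refine ⟨(∏ x ∈ P.support.erase m, (P.coeff x).den : ℕ) * (P.coeff m).num, ?_⟩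
    rw [Nat.cast_mul, Int.cast_mul, ← Rat.mul_den_eq_num, Int.cast_natCast]
    ring
  · exact ⟨0, by rw [notMem_support_iff.1 hm]; simp⟩

lemma hasse_int (P : ℚ[X]) (D : ℕ) (hD : ∀ m, ∃ z : ℤ, (D : ℚ) * P.coeff m = z) (m x : ℕ) :
    ∃ z : ℤ, (D : ℚ) * (hasseDeriv m P).eval (x : ℚ) = z := by
  choose z hz using hD
  rw [eval_eq_sum_range, Finset.mul_sum]
  refine ⟨∑ l ∈ Finset.range ((hasseDeriv m P).natDegree + 1),
    ((l + m).choose m : ℕ) * z (l + m) * (x : ℤ) ^ l, ?_⟩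
  push_cast
  refine Finset.sum_congr rfl fun l _ => ?_
  rw [hasseDeriv_coeff, ← hz]
  ring

lemma exists_nat_poly (P : ℚ[X]) (a : ℕ → ℕ) (ha : ∀ n : ℕ, (a n : ℚ) = P.eval (n : ℚ))
    (D : ℕ) (hD : ∀ m, ∃ z : ℤ, (D : ℚ) * P.coeff m = z) (x : ℕ)
    (hx : ∀ m ≤ P.natDegree, 0 < (hasseDeriv m P).eval (x : ℚ)) :
    ∃ Q : ℕ[X], Q.natDegree ≤ P.natDegree ∧
      (∀ m, (Q.coeff m : ℚ) = (D : ℚ) ^ m * (hasseDeriv m P).eval (x : ℚ)) ∧
      ∀ y : ℕ, Q.eval y = a (x + D * y) := by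
  have h1 : ∀ m, ∃ q : ℕ, (q : ℚ) = (D : ℚ) ^ m * (hasseDeriv m P).eval (x : ℚ) := by
    intro m
    rcases Nat.eq_zero_or_pos m with h0 | h0
    · exact ⟨a x, by simp [h0, ha]⟩
    by_cases hm : m ≤ P.natDegree
    · obtain ⟨z, hz⟩ := hasse_int P D hD m x
      have hz0 : 0 ≤ z := by
        have : (0 : ℚ) ≤ z := by rw [← hz]; exact mul_nonneg (by positivity) (hx m hm).le
        exact_mod_cast this
      obtain ⟨n, rfl⟩ := Int.eq_ofNat_of_zero_le hz0
      obtain ⟨m', rfl⟩ : ∃ m', m = m' + 1 := ⟨m - 1, by omega⟩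
      refine ⟨D ^ m' * n, ?_⟩
      rw [pow_succ, mul_assoc, hz]
      push_cast
      rfl
    · exact ⟨0, by rw [hasseDeriv_eq_zero_of_lt_natDegree P m (by omega)]; simp⟩
  choose q hq using h1
  have hcoeff : ∀ m, (∑ l ∈ Finset.range (P.natDegree + 1), monomial l (q l)).coeff m = q m := by
    intro m
    simp only [finsetSum_coeff, coeff_monomial, Finset.sum_ite_eq', Finset.mem_range]
    split_ifs with h
    · rfl
    · have := hq m
      rw [hasseDeriv_eq_zero_of_lt_natDegree P m (by omega)] at this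
      simp only [eval_zero, mul_zero, Nat.cast_eq_zero] at this
      exact this.symm
  refine ⟨∑ l ∈ Finset.range (P.natDegree + 1), monomial l (q l), ?_, fun m => ?_, fun y => ?_⟩
  · refine natDegree_sum_le_of_forall_le _ _ fun l hl => (natDegree_monomial_le _).trans ?_
    have := Finset.mem_range.1 hl
    omega
  · rw [hcoeff, hq]
  · apply Nat.cast_injective (R := ℚ)
    rw [ha, eval_finsetSum]
    push_cast
    rw [add_comm (x : ℚ), ← taylor_eval, eval_eq_sum_range, natDegree_taylor]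
    refine Finset.sum_congr rfl fun l _ => ?_
    rw [eval_monomial, taylor_coeff]
    push_cast
    rw [hq]
    ring

lemma pow_ratio (c c' u v : ℕ) (h1 : c < 2 * c') (h2 : c' < 2 * c) (h : 2 ^ u * c = 2 ^ v * c') :
    c = c' := by
  rcases lt_trichotomy u v with huv | huv | huv
  · obtain ⟨k, rfl⟩ := Nat.exists_eq_add_of_lt huv
    have : c = 2 ^ k * (2 * c') := by
      apply Nat.eq_of_mul_eq_mul_left (Nat.two_pow_pos u)
      rw [h]; ring
    have h3 : 1 ≤ 2 ^ k := Nat.one_le_two_pow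
    nlinarith
  · subst huv
    exact Nat.eq_of_mul_eq_mul_left (Nat.two_pow_pos u) h
  · obtain ⟨k, rfl⟩ := Nat.exists_eq_add_of_lt huv
    have : c' = 2 ^ k * (2 * c) := by
      apply Nat.eq_of_mul_eq_mul_left (Nat.two_pow_pos v)
      rw [← h]; ring
    have h3 : 1 ≤ 2 ^ k := Nat.one_le_two_pow
    nlinarith

theorem main (P : ℚ[X]) (hdeg : 2 ≤ P.natDegree) (a : ℕ → ℕ)
    (ha : ∀ n : ℕ, (a n : ℚ) = P.eval (n : ℚ)) (k : ℕ) (w : Fin k → ZMod 2) :
    ∃ m : ℕ, ∀ i : Fin k, t (a (m + i)) = w i := by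
  set d := P.natDegree with hd
  have hP : P ≠ 0 := by rintro rfl; simp at hd; omega
  have hl : 0 < P.coeff d := by
    rcases lt_trichotomy 0 (P.coeff d) with h | h | h
    · exact h
    · exact absurd h.symm (leadingCoeff_ne_zero.2 hP)
    · obtain ⟨x, hx⟩ := (ev_pos (-P) d (by rw [natDegree_neg]) (by rw [coeff_neg]; linarith)).exists
      rw [eval_neg, ← ha] at hx
      have : (0 : ℚ) ≤ a x := by positivity
      linarith
  obtain ⟨D, hD0, hD⟩ := exists_den P
  set r := Nat.log 2 (d - 1) with hr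
  have hr1 : 2 ^ r ≤ d - 1 := Nat.pow_log_le_self 2 (by omega)
  have hr2 : d - 1 < 2 ^ (r + 1) := Nat.lt_pow_succ_log_self (by norm_num) _
  rw [pow_succ] at hr2
  set H := hasseDeriv (2 ^ r) P with hH
  obtain ⟨hH1, hH2⟩ := hasse_top P d (2 ^ r) rfl (by omega) hl
  have hH3 : H.natDegree = d - 2 ^ r := le_antisymm hH1 (le_natDegree_of_ne_zero hH2.ne')
  have e1 : ∀ᶠ x : ℕ in atTop, ∀ i : Fin k, ∀ m : Fin (d + 1),
      0 < (hasseDeriv m P).eval ((x + i : ℕ) : ℚ) := by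
    refine eventually_all.2 fun i => eventually_all.2 fun m => ?_
    obtain ⟨g1, g2⟩ := hasse_top P d m rfl (by have := m.2; omega) hl
    exact (tendsto_add_atTop_nat i).eventually (ev_pos _ _ g1 g2)
  have e2 : ∀ᶠ x : ℕ in atTop, ∀ i j : Fin k,
      H.eval ((x + j : ℕ) : ℚ) < 2 * H.eval ((x + i : ℕ) : ℚ) :=
    eventually_all.2 fun i => eventually_all.2 fun j => ev_ratio H _ hH3 hH2 i j
  have e3 : ∀ᶠ x : ℕ in atTop, ∀ i j : Fin k, i ≠ j →
      H.eval ((x + j : ℕ) : ℚ) ≠ H.eval ((x + i : ℕ) : ℚ) := by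
    refine eventually_all.2 fun i => eventually_all.2 fun j => ?_
    by_cases hij : i = j
    · simp [hij]
    · filter_upwards [ev_ne H _ hH3 (by omega) i j (fun h => hij (Fin.ext h))] with x hx _
      exact hx
  obtain ⟨x, hx1, hx2, hx3⟩ := (e1.and (e2.and e3)).exists
  have hQ := fun i : Fin k => exists_nat_poly P a ha D hD (x + i)
    (fun m hm => hx1 i ⟨m, by omega⟩)
  choose Q hQ1 hQ2 hQ3 using hQ
  have hDq : (0 : ℚ) < (D : ℚ) ^ 2 ^ r := by positivity
  obtain ⟨c, hc⟩ : ∃ c : ℕ, ∀ i, (Q i).coeff (2 * 2 ^ r) = c := by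
    refine ⟨⌊(D : ℚ) ^ (2 * 2 ^ r) * (hasseDeriv (2 * 2 ^ r) P).coeff 0⌋₊, fun i => ?_⟩
    have h1 : (hasseDeriv (2 * 2 ^ r) P).natDegree = 0 := by
      have := natDegree_hasseDeriv_le P (2 * 2 ^ r)
      omega
    have h2 := hQ2 i (2 * 2 ^ r)
    rw [eq_C_of_natDegree_eq_zero h1, eval_C] at h2
    rw [← h2, Nat.floor_natCast]
  obtain ⟨y, hy⟩ := core Q r d (by omega) (by omega) hQ1 c hc (fun i => by
      have h1 := hx1 i ⟨2 ^ r, by omega⟩
      have h2 : (0 : ℚ) < (Q i).coeff (2 ^ r) := by rw [hQ2]; exact mul_pos hDq h1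
      exact_mod_cast h2) (fun i j u v huv => by
      by_contra hij
      have hlt : ∀ i j : Fin k, (Q j).coeff (2 ^ r) < 2 * (Q i).coeff (2 ^ r) := by
        intro i j
        have h2 : ((Q j).coeff (2 ^ r) : ℚ) < 2 * (Q i).coeff (2 ^ r) := by
          rw [hQ2, hQ2]
          have := mul_lt_mul_of_pos_left (hx2 i j) hDq
          linarith
        exact_mod_cast h2
      have h3 := pow_ratio _ _ u v (hlt j i) (hlt i j) huv
      have h4 : ((Q i).coeff (2 ^ r) : ℚ) = (Q j).coeff (2 ^ r) := by rw [h3]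
      rw [hQ2, hQ2] at h4
      exact hx3 i j hij (mul_left_cancel₀ hDq.ne' h4).symm) w
  refine ⟨x + D * y, fun i => ?_⟩
  rw [← hy i, hQ3]
  congr 2
  ring

end Pool.Agent.MP_b1aeef_nt.H82
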