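import Pool.Agent.MP_b1aeef_nt.H82.Digits

/-! A divided power monoid algebra over `ZMod 2` recording lacunary shifts. -/

open Filter Polynomial

namespace Pool.Agent.MP_b1aeef_nt.H82

/-- Pairs (degree, multiplier). -/
@[ext] structure M where
  /-- degree -/
  m : ℕ
  /-- multiplier -/
  b : ℕ

instance : Mul M := ⟨fun g h => ⟨g.m + h.m, (g.m + h.m).choose h.m * g.b * h.b⟩⟩
instance : One M := ⟨⟨0, 1⟩⟩

@[simp] lemma mul_m (g h : M) : (g * h).m = g.m + h.m := rfl
@[simp] lemma mul_b (g h : M) : (g * h).b = (g.m + h.m).choose h.m * g.b * h.b := rfl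
@[simp] lemma one_m : (1 : M).m = 0 := rfl
@[simp] lemma one_b : (1 : M).b = 1 := rfl

instance : CommMonoid M where
  mul_assoc x y z := by
    ext
    · simp [add_assoc]
    · simp only [mul_b, mul_m]
      have h1 := Nat.choose_mul (n := x.m + y.m + z.m) (k := y.m + z.m) (s := z.m) (by omega)
      have h2 : x.m + y.m + z.m - z.m = x.m + y.m := by omega
      have h3 : y.m + z.m - z.m = y.m := by omega
      rw [h2, h3] at h1
      rw [← add_assoc]
      calc _ = ((x.m + y.m + z.m).choose z.m * (x.m + y.m).choose y.m) * (x.b * y.b * z.b) := by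
            ring
        _ = _ := by rw [← h1]; ring
  one_mul x := by ext <;> simp
  mul_one x := by ext <;> simp
  mul_comm x y := by
    ext
    · simp [add_comm]
    · simp only [mul_b]
      rw [add_comm y.m x.m, Nat.choose_symm_add (a := x.m) (b := y.m)]
      ring

lemma pow_m (g : M) (n : ℕ) : (g ^ n).m = n * g.m := by
  induction n with
  | zero => simp
  | succ n ih => rw [pow_succ, mul_m, ih]; ring

lemma prod_one (l : List ℕ) :
    (l.map fun b => (⟨1, b⟩ : M)).prod = ⟨l.length, l.length.factorial * l.prod⟩ := by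
  induction l with
  | nil => rfl
  | cons a l ih =>
    rw [List.map_cons, List.prod_cons, ih]
    ext
    · simp [add_comm]
    · simp only [mul_b, List.length_cons, List.prod_cons, Nat.factorial_succ]
      rw [add_comm 1, Nat.choose_succ_self_right]
      ring

lemma one_pow_eq (b n : ℕ) : (⟨1, b⟩ : M) ^ n = ⟨n, n.factorial * b ^ n⟩ := by
  have := prod_one (List.replicate n b)
  simpa using this

/-- The algebra. -/
abbrev A := MonoidAlgebra (ZMod 2) M

instance : CharP A 2 := charP_of_injective_algebraMap (R := ZMod 2)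
  (fun x y h => by
    have : (MonoidAlgebra.single (1 : M) x : A) = MonoidAlgebra.single 1 y := by
      simpa [MonoidAlgebra.coe_algebraMap] using h
    exact MonoidAlgebra.single_right_injective this) 2

/-- basis element -/
noncomputable abbrev sg (g : M) : A := MonoidAlgebra.single g 1

lemma sg_mul (g h : M) : sg g * sg h = sg (g * h) := by
  simp [sg, MonoidAlgebra.single_mul_single]

lemma sg_pow (g : M) (n : ℕ) : sg g ^ n = sg (g ^ n) := by
  simp [sg, MonoidAlgebra.single_pow]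

lemma sg_one : sg 1 = 1 := rfl

/-- The test functional attached to a polynomial. -/
noncomputable def tau (Q : ℕ[X]) : A →ₗ[ZMod 2] ZMod 2 :=
  (Finsupp.linearCombination (ZMod 2) (fun g : M => t (g.b * Q.coeff g.m))) ∘ₗ
    (MonoidAlgebra.coeffLinearEquiv (ZMod 2)).toLinearMap

lemma tau_single (Q : ℕ[X]) (g : M) (r : ZMod 2) :
    tau Q (MonoidAlgebra.single g r) = r * t (g.b * Q.coeff g.m) := by
  simp [tau]

lemma tau_sg (Q : ℕ[X]) (g : M) : tau Q (sg g) = t (g.b * Q.coeff g.m) := by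
  simp [sg, tau_single]

lemma tau_one (Q : ℕ[X]) : tau Q 1 = t (Q.coeff 0) := by
  rw [← sg_one, tau_sg]; simp

/-- The shift element. -/
noncomputable def E (d b : ℕ) : A := ∑ l ∈ Finset.range (d + 1), sg ⟨l, b ^ l⟩

lemma shift_single (d b : ℕ) (Q : ℕ[X]) (hQ : Q.natDegree ≤ d) (g : M) :
    ∀ᶠ L : ℕ in atTop, tau (taylor (b * 2 ^ L) Q) (sg g) = tau Q (E d b * sg g) := by
  filter_upwards [t_sum (d + 1)
    (fun l => (l + g.m).choose g.m * b ^ l * g.b * Q.coeff (l + g.m))] with L hL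
  rw [tau_sg, E, Finset.sum_mul, map_sum]
  simp only [sg_mul, tau_sg, mul_b, mul_m]
  rw [← hL, taylor_coeff, eval_eq_sum_range' (n := d + 1)
    (lt_of_le_of_lt (natDegree_hasseDeriv_le Q g.m) (by omega)), Finset.mul_sum]
  congr 1
  refine Finset.sum_congr rfl fun l _ => ?_
  rw [hasseDeriv_coeff, mul_pow]
  simp only [Nat.cast_id]
  ring

lemma shift (d b : ℕ) (Q : ℕ[X]) (hQ : Q.natDegree ≤ d) (a : A) :
    ∀ᶠ L : ℕ in atTop, tau (taylor (b * 2 ^ L) Q) a = tau Q (E d b * a) := by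
  induction a using MonoidAlgebra.induction_linear with
  | zero => simp
  | add x y hx hy =>
    filter_upwards [hx, hy] with L h1 h2
    rw [mul_add, map_add, map_add, h1, h2]
  | single g r =>
    filter_upwards [shift_single d b Q hQ g] with L h
    have : (MonoidAlgebra.single g r : A) = r • sg g := by simp [sg]
    rw [this, mul_smul_comm, map_smul, map_smul, h]

lemma reach_aux {ι : Type*} [Finite ι] (d : ℕ) (Q : ι → ℕ[X]) (hQ : ∀ i, (Q i).natDegree ≤ d)
    (bs : List ℕ) (a : A) :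
    ∃ y : ℕ, ∀ i, tau (taylor y (Q i)) a = tau (Q i) ((bs.map (E d)).prod * a) := by
  induction bs generalizing a with
  | nil => exact ⟨0, fun i => by simp⟩
  | cons b bs ih =>
    obtain ⟨y, hy⟩ := ih (E d b * a)
    have : ∀ᶠ L : ℕ in atTop, ∀ i, tau (taylor (b * 2 ^ L) (taylor y (Q i))) a =
        tau (taylor y (Q i)) (E d b * a) :=
      eventually_all.2 fun i => shift d b _ (by rw [natDegree_taylor]; exact hQ i) a
    obtain ⟨L, hL⟩ := this.exists
    refine ⟨b * 2 ^ L + y, fun i => ?_⟩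
    rw [← taylor_taylor, hL, hy, List.map_cons, List.prod_cons]
    congr 1
    ring

/-- The monoid of reachable elements. -/
noncomputable def Gam (d : ℕ) : Submonoid A := Submonoid.closure (Set.range (E d))

lemma E_mem (d b : ℕ) : E d b ∈ Gam d := Submonoid.subset_closure ⟨b, rfl⟩

lemma reach {ι : Type*} [Finite ι] (d : ℕ) (Q : ι → ℕ[X]) (hQ : ∀ i, (Q i).natDegree ≤ d)
    (γ : A) (hγ : γ ∈ Gam d) : ∃ y : ℕ, ∀ i, t ((Q i).eval y) = tau (Q i) γ := by
  have : ∃ bs : List ℕ, γ = (bs.map (E d)).prod := by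
    induction hγ using Submonoid.closure_induction with
    | mem x hx => obtain ⟨b, rfl⟩ := hx; exact ⟨[b], by simp⟩
    | one => exact ⟨[], by simp⟩
    | mul x y _ _ hx hy =>
      obtain ⟨l1, rfl⟩ := hx
      obtain ⟨l2, rfl⟩ := hy
      exact ⟨l1 ++ l2, by simp⟩
  obtain ⟨bs, rfl⟩ := this
  obtain ⟨y, hy⟩ := reach_aux d Q hQ bs 1
  refine ⟨y, fun i => ?_⟩
  have := hy i
  rwa [tau_one, taylor_coeff_zero, mul_one] at this

/-- Elements of order at least `n`. -/
noncomputable def I (n : ℕ) : Submodule (ZMod 2) A :=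
  MonoidAlgebra.supported (ZMod 2) (ZMod 2) {g : M | n ≤ g.m}

lemma I_mono {n k : ℕ} (h : n ≤ k) {a : A} (ha : a ∈ I k) : a ∈ I n := by
  rw [I, MonoidAlgebra.mem_supported] at *
  intro g hg
  exact h.trans (ha hg)

lemma mem_I_zero (a : A) : a ∈ I 0 := by
  rw [I, MonoidAlgebra.mem_supported]
  intro g _
  exact Nat.zero_le _

lemma sg_mem {n : ℕ} {g : M} (h : n ≤ g.m) : sg g ∈ I n := by
  rw [I, MonoidAlgebra.mem_supported]
  intro g' hg'
  have : g' = g := by
    have := Finsupp.support_single_subset (Finset.mem_coe.1 hg')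
    simpa using this
  rw [this]; exact h

lemma mul_mem_I {n k : ℕ} {a b : A} (ha : a ∈ I n) (hb : b ∈ I k) : a * b ∈ I (n + k) := by
  classical
  rw [I, MonoidAlgebra.mem_supported] at *
  intro g hg
  have := MonoidAlgebra.support_coeff_mul_subset a b (Finset.mem_coe.1 hg)
  obtain ⟨x, hx, y, hy, rfl⟩ := Finset.mem_mul.1 this
  have h1 : n ≤ x.m := ha hx
  have h2 : k ≤ y.m := hb hy
  change n + k ≤ x.m + y.m
  omega

lemma tau_congr {n : ℕ} {Q Q' : ℕ[X]} (h : ∀ m, n ≤ m → Q.coeff m = Q'.coeff m) {a : A}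
    (ha : a ∈ I n) : tau Q a = tau Q' a := by
  rw [I, MonoidAlgebra.supported_eq_span_single] at ha
  induction ha using Submodule.span_induction with
  | mem x hx =>
    obtain ⟨g, hg, rfl⟩ := hx
    simp only [tau_single]
    rw [h _ hg]
  | zero => simp
  | add x y _ _ hx hy => rw [map_add, map_add, hx, hy]
  | smul r x _ hx => rw [map_smul, map_smul, hx]

lemma tau_zero_poly (a : A) : tau 0 a = 0 := by
  induction a using MonoidAlgebra.induction_linear with
  | zero => simp
  | add x y hx hy => rw [map_add, hx, hy, add_zero]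
  | single g r => simp [tau_single, t_zero]

lemma tau_eq_zero {n : ℕ} {Q : ℕ[X]} (h : ∀ m, n ≤ m → Q.coeff m = 0) {a : A}
    (ha : a ∈ I n) : tau Q a = 0 := by
  rw [← tau_zero_poly a]
  exact tau_congr (fun m hm => by rw [h m hm, coeff_zero]) ha

lemma E_pow (d b r : ℕ) (hd : 1 ≤ d) :
    E d b ^ 2 ^ r - 1 - sg ⟨2 ^ r, (2 ^ r).factorial * b ^ 2 ^ r⟩ ∈ I (2 * 2 ^ r) := by
  obtain ⟨e, rfl⟩ : ∃ e, d = e + 1 := ⟨d - 1, by omega⟩
  rw [E, sum_pow_char_pow, Finset.sum_range_succ', Finset.sum_range_succ']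
  have h0 : sg ⟨0, b ^ 0⟩ = 1 := by rw [pow_zero]; rfl
  have h1 : sg ⟨0 + 1, b ^ (0 + 1)⟩ ^ 2 ^ r = sg ⟨2 ^ r, (2 ^ r).factorial * b ^ 2 ^ r⟩ := by
    rw [sg_pow, zero_add, pow_one, one_pow_eq]
  rw [h0, h1, one_pow, add_sub_cancel_right, add_sub_cancel_right]
  refine Submodule.sum_mem _ fun l _ => ?_
  rw [sg_pow]
  apply sg_mem
  rw [pow_m]
  change 2 * 2 ^ r ≤ 2 ^ r * (l + 1 + 1)
  nlinarith [Nat.zero_le (2 ^ r * l)]

lemma prod_E_pow (d r s : ℕ) (hd : 1 ≤ d) (hs : s ≤ 2 ^ r) (bs : List ℕ) (γ : A)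
    (hγ : γ ∈ Gam d) (h1 : γ - 1 ∈ I s) :
    ∃ γ' ∈ Gam d, γ' - 1 ∈ I s ∧
      γ' - γ - (bs.map fun b => sg ⟨2 ^ r, (2 ^ r).factorial * b ^ 2 ^ r⟩).sum ∈
        I (s + 2 ^ r) := by
  induction bs with
  | nil => exact ⟨γ, hγ, h1, by simp⟩
  | cons b bs ih =>
    obtain ⟨γ', hγ', h2, h3⟩ := ih
    have h4 := E_pow d b r hd
    set x := sg ⟨2 ^ r, (2 ^ r).factorial * b ^ 2 ^ r⟩ with hx
    have hxm : x ∈ I (2 ^ r) := sg_mem le_rfl
    have h5 : E d b ^ 2 ^ r - 1 ∈ I (2 ^ r) := by
      have := Submodule.add_mem _ (I_mono (by omega) h4) hxm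
      simpa using this
    have h6 : (γ' - 1) * (E d b ^ 2 ^ r - 1) ∈ I (s + 2 ^ r) := mul_mem_I h2 h5
    refine ⟨γ' * E d b ^ 2 ^ r, Submonoid.mul_mem _ hγ' (Submonoid.pow_mem _ (E_mem d b) _),
      ?_, ?_⟩
    · have := Submodule.add_mem _ (Submodule.add_mem _ (I_mono (Nat.le_add_right _ _) h6) h2)
        (I_mono hs h5)
      convert this using 1
      ring
    · have := Submodule.add_mem _ (Submodule.add_mem _ h6 h3) (I_mono (by omega) h4)
      convert this using 1
      rw [List.map_cons, List.sum_cons]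
      ring

lemma prod_E_sub (d : ℕ) (hd : 1 ≤ d) (bs : List ℕ) :
    (bs.map fun b => E d b - 1).prod - sg (bs.map fun b => (⟨1, b⟩ : M)).prod ∈
      I (bs.length + 1) := by
  induction bs with
  | nil => simp [sg_one]
  | cons b bs ih =>
    have h4 := E_pow d b 0 hd
    simp only [pow_zero, pow_one, Nat.factorial_one, one_mul, mul_one] at h4
    have h5 : sg (⟨1, b⟩ : M) ∈ I 1 := sg_mem le_rfl
    have h6 : sg (bs.map fun b => (⟨1, b⟩ : M)).prod ∈ I bs.length := by
      apply sg_mem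
      rw [prod_one]
    have h7 : E d b - 1 ∈ I 1 := by
      have := Submodule.add_mem _ (I_mono (by omega) h4) h5
      simpa using this
    have h8 := mul_mem_I h7 ih
    have h9 := mul_mem_I h4 h6
    simp only [List.map_cons, List.prod_cons, List.length_cons]
    rw [← sg_mul]
    have := Submodule.add_mem _ (I_mono (n := bs.length + 1 + 1) (by omega) h8)
      (I_mono (n := bs.length + 1 + 1) (by omega) h9)
    convert this using 1
    ring

end Pool.Agent.MP_b1aeef_nt.H82
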