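import Pool.Agent.MP_b1aeef_nt.H82.Alg

/-! Polarisation, spanning and the core surjectivity theorem. -/

open Filter Polynomial

namespace Pool.Agent.MP_b1aeef_nt.H82

lemma polar {ι : Type*} [Finite ι] (S : Finset ι) (c : ι → ℕ) (n : ℕ) (hn : 1 ≤ n)
    (h : ∀ b : ℕ, ∑ i ∈ S, t (b ^ n * c i) = 0) (b : ℕ) :
    ∑ i ∈ S, t (b * (n.factorial * c i)) = 0 := by
  let R : ι → ℕ[X] := fun i => monomial n (c i)
  have hR : ∀ i, (R i).natDegree ≤ n := fun i => natDegree_monomial_le _
  have h0 : ∀ γ ∈ Gam n, ∑ i ∈ S, tau (R i) γ = 0 := by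
    intro γ hγ
    obtain ⟨y, hy⟩ := reach n R hR γ hγ
    rw [← h y]
    refine Finset.sum_congr rfl fun i _ => ?_
    rw [← hy i]
    simp [R, mul_comm]
  have h1 : ∀ bs : List ℕ, ∀ γ ∈ Gam n,
      ∑ i ∈ S, tau (R i) (γ * (bs.map fun b => E n b - 1).prod) = 0 := by
    intro bs
    induction bs with
    | nil => intro γ hγ; simpa using h0 γ hγ
    | cons a bs ih =>
      intro γ hγ
      have e1 := ih (γ * E n a) (Submonoid.mul_mem _ hγ (E_mem n a))
      have e2 := ih γ hγ
      have : γ * ((a :: bs).map fun b => E n b - 1).prod =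
          γ * E n a * (bs.map fun b => E n b - 1).prod - γ * (bs.map fun b => E n b - 1).prod := by
        rw [List.map_cons, List.prod_cons]; ring
      simp only [this, map_sub, Finset.sum_sub_distrib, e1, e2, sub_zero]
  have h2 := h1 (b :: List.replicate (n - 1) 1) 1 (Submonoid.one_mem _)
  have h3 := prod_E_sub n hn (b :: List.replicate (n - 1) 1)
  have hlen : (b :: List.replicate (n - 1) 1).length = n := by simp; omega
  rw [prod_one, hlen] at h3
  rw [← h2]
  refine Finset.sum_congr rfl fun i _ => ?_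
  have h4 : tau (R i) _ = 0 := tau_eq_zero (n := n + 1) (fun m hm => by
    simp only [R, coeff_monomial]; rw [if_neg (by omega)]) h3
  rw [map_sub, sub_eq_zero] at h4
  rw [one_mul, h4, tau_sg]
  simp only [R, coeff_monomial, if_true, List.prod_cons, List.prod_replicate, one_pow]
  congr 1
  ring

lemma spanning {ι : Type*} [Fintype ι] (c : ι → ℕ) (hpos : ∀ i, 0 < c i)
    (hinj : ∀ i j, ∀ u v : ℕ, 2 ^ u * c i = 2 ^ v * c j → i = j) (n : ℕ) (hn : 1 ≤ n)
    (v : ι → ZMod 2) : ∃ bs : List ℕ, ∀ i, (bs.map fun b => t (b ^ n * c i)).sum = v i := by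
  classical
  let w : ℕ → ι → ZMod 2 := fun b i => t (b ^ n * c i)
  have htop : Submodule.span (ZMod 2) (Set.range w) = ⊤ := by
    by_contra hne
    obtain ⟨f, hf, hle⟩ := Submodule.exists_le_ker_of_lt_top _ (lt_top_iff_ne_top.2 hne)
    let S : Finset ι := Finset.univ.filter fun i => f (Pi.single i 1) = 1
    have hfv : ∀ u : ι → ZMod 2, f u = ∑ i ∈ S, u i := by
      intro u
      have hu : u = ∑ i, u i • (Pi.single i 1 : ι → ZMod 2) := by
        ext j; simp [Finset.sum_apply, Pi.single_apply]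
      conv_lhs => rw [hu]
      rw [map_sum, Finset.sum_filter]
      refine Finset.sum_congr rfl fun i _ => ?_
      rw [map_smul]
      have aux : ∀ x y : ZMod 2, x • y = if y = 1 then x else 0 := by decide
      exact aux _ _
    have hS : S = ∅ := by
      refine indep S (fun i => n.factorial * c i) (fun i => Nat.mul_pos n.factorial_pos (hpos i))
        (fun i j u v huv => hinj i j u v ?_) (polar S c n hn fun b => ?_)
      · apply Nat.eq_of_mul_eq_mul_left n.factorial_pos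
        calc _ = 2 ^ u * (n.factorial * c i) := by ring
          _ = _ := by rw [huv]; ring
      · rw [← hfv (w b)]
        exact hle (Submodule.subset_span ⟨b, rfl⟩)
    apply hf
    refine LinearMap.ext fun u => ?_
    rw [hfv u, hS]
    simp
  have hv : v ∈ Submodule.span (ZMod 2) (Set.range w) := by rw [htop]; trivial
  induction hv using Submodule.span_induction with
  | mem x hx => obtain ⟨b, rfl⟩ := hx; exact ⟨[b], fun i => by simp [w]⟩
  | zero => exact ⟨[], fun i => by simp⟩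
  | add x y _ _ hx hy =>
    obtain ⟨l1, h1⟩ := hx
    obtain ⟨l2, h2⟩ := hy
    exact ⟨l1 ++ l2, fun i => by simp [h1 i, h2 i]⟩
  | smul r x _ hx =>
    have aux : ∀ r : ZMod 2, r = 0 ∨ r = 1 := by decide
    rcases aux r with rfl | rfl
    · exact ⟨[], fun i => by simp⟩
    · simpa using hx

theorem core {ι : Type*} [Fintype ι] (Q : ι → ℕ[X]) (r d : ℕ) (hd1 : 1 ≤ d) (hd : d ≤ 2 * 2 ^ r)
    (hQ : ∀ i, (Q i).natDegree ≤ d) (c : ℕ) (hc : ∀ i, (Q i).coeff (2 * 2 ^ r) = c)
    (hpos : ∀ i, 0 < (Q i).coeff (2 ^ r))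
    (hinj : ∀ i j, ∀ u v : ℕ, 2 ^ u * (Q i).coeff (2 ^ r) = 2 ^ v * (Q j).coeff (2 ^ r) → i = j)
    (v : ι → ZMod 2) : ∃ y : ℕ, ∀ i, t ((Q i).eval y) = v i := by
  have hN : 1 ≤ 2 ^ r := Nat.one_le_two_pow
  have hz : ∀ i m, 2 * 2 ^ r + 1 ≤ m → (Q i).coeff m = 0 := fun i m hm =>
    coeff_eq_zero_of_natDegree_lt (by have := hQ i; omega)
  obtain ⟨bs, hbs⟩ := spanning (fun i => (2 ^ r).factorial * (Q i).coeff (2 ^ r))
    (fun i => Nat.mul_pos (Nat.factorial_pos _) (hpos i))
    (fun i j u v huv => hinj i j u v (by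
      apply Nat.eq_of_mul_eq_mul_left (2 ^ r).factorial_pos
      calc _ = 2 ^ u * ((2 ^ r).factorial * (Q i).coeff (2 ^ r)) := by ring
        _ = _ := by rw [huv]; ring)) (2 ^ r) hN (fun i => v i - t ((Q i).coeff 0))
  obtain ⟨γ, hγ, h1, h2⟩ := prod_E_pow d r (2 ^ r) hd1 le_rfl bs 1 (Submonoid.one_mem _)
    (by simp)
  have hsum : ∀ (Q' : ℕ[X]) (n : ℕ) (l : List ℕ),
      tau Q' (l.map fun b => sg ⟨n, n.factorial * b ^ n⟩).sum =
      (l.map fun b => t (b ^ n * (n.factorial * Q'.coeff n))).sum := by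
    intro Q' n l
    induction l with
    | nil => simp
    | cons a l ih =>
      rw [List.map_cons, List.sum_cons, map_add, ih, tau_sg, List.map_cons, List.sum_cons]
      congr 2
      ring
  set ρ := γ - 1 - (bs.map fun b => sg ⟨2 ^ r, (2 ^ r).factorial * b ^ 2 ^ r⟩).sum with hρ
  set κ := tau (monomial (2 * 2 ^ r) c) ρ with hκ
  have h3 : ∀ i, tau (Q i) γ = v i + κ := by
    intro i
    have e1 : tau (Q i) ρ = κ := by
      refine tau_congr (n := 2 ^ r + 2 ^ r) (fun m hm => ?_) h2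
      rw [coeff_monomial]
      split_ifs with h
      · rw [← h, hc]
      · exact hz i m (by omega)
    rw [hρ, map_sub, map_sub, hsum, hbs i, tau_one] at e1
    rw [← e1]
    ring
  rcases Nat.eq_zero_or_pos c with h0 | h0
  · obtain ⟨y, hy⟩ := reach d Q hQ γ hγ
    refine ⟨y, fun i => ?_⟩
    rw [hy i, h3 i, hκ, h0, map_zero, tau_zero_poly, add_zero]
  · obtain ⟨bs', hbs'⟩ := spanning (ι := Unit) (fun _ => (2 ^ (r + 1)).factorial * c)
      (fun _ => Nat.mul_pos (Nat.factorial_pos _) h0) (fun _ _ _ _ _ => rfl) (2 ^ (r + 1))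
      Nat.one_le_two_pow (fun _ => -κ)
    have hp : 2 ^ (r + 1) = 2 * 2 ^ r := by ring
    obtain ⟨γ', hγ', -, h5⟩ := prod_E_pow d (r + 1) (2 ^ r) hd1 (by omega) bs' γ hγ h1
    obtain ⟨y, hy⟩ := reach d Q hQ γ' hγ'
    refine ⟨y, fun i => ?_⟩
    have e1 := tau_eq_zero (Q := Q i) (fun m hm => hz i m (by omega)) h5
    rw [map_sub, map_sub, hsum, h3 i, hp, hc i, ← hp, hbs' ()] at e1
    rw [hy i]
    linear_combination e1

end Pool.Agent.MP_b1aeef_nt.H82
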