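import Mathlib

/-! Basic facts on the Thue-Morse sequence with values in `ZMod 2`. -/

open Filter

namespace Pool.Agent.MP_b1aeef_nt.H82

/-- Thue-Morse with values in `ZMod 2`. -/
def t (n : ℕ) : ZMod 2 := ((Nat.digits 2 n).sum : ℕ)

lemma t_zero : t 0 = 0 := by simp [t]

lemma t_one : t 1 = 1 := by simp [t]

lemma t_add_two_mul (n r : ℕ) (hr : r < 2) : t (r + 2 * n) = r + t n := by
  rcases Nat.eq_zero_or_pos (r + 2 * n) with h | h
  · have h1 : r = 0 := by omega
    have h2 : n = 0 := by omega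
    simp [h1, h2, t]
  · unfold t
    rw [Nat.digits_add 2 (by norm_num) r n hr (by omega)]
    simp

lemma t_add_pow (L a c : ℕ) (ha : a < 2 ^ L) : t (a + 2 ^ L * c) = t a + t c := by
  induction L generalizing a with
  | zero =>
    have : a = 0 := by simpa using ha
    simp [this, t_zero]
  | succ L ih =>
    have h1 : a + 2 ^ (L + 1) * c = a % 2 + 2 * (a / 2 + 2 ^ L * c) := by
      have := Nat.mod_add_div a 2
      rw [pow_succ]
      nlinarith
    have h2 : a / 2 < 2 ^ L := by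
      rw [pow_succ] at ha
      omega
    have h3 : t a = ((a % 2 : ℕ) : ZMod 2) + t (a / 2) := by
      conv_lhs => rw [← Nat.mod_add_div a 2]
      exact t_add_two_mul _ _ (Nat.mod_lt _ (by norm_num))
    rw [h1, t_add_two_mul _ _ (Nat.mod_lt _ (by norm_num)), ih _ h2, h3, add_assoc]

lemma t_pow_mul (L c : ℕ) : t (2 ^ L * c) = t c := by
  have := t_add_pow L 0 c (by positivity)
  simpa [t_zero] using this

lemma eventually_lt_two_pow (a : ℕ) : ∀ᶠ L : ℕ in atTop, a < 2 ^ L := by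
  filter_upwards [eventually_ge_atTop a] with L hL
  exact lt_of_le_of_lt hL Nat.lt_two_pow_self

lemma t_sum (n : ℕ) (c : ℕ → ℕ) :
    ∀ᶠ L : ℕ in atTop, t (∑ l ∈ Finset.range n, c l * (2 ^ L) ^ l) =
      ∑ l ∈ Finset.range n, t (c l) := by
  induction n generalizing c with
  | zero => simp [t_zero]
  | succ n ih =>
    filter_upwards [ih (fun l => c (l + 1)), eventually_lt_two_pow (c 0)] with L h1 h2
    rw [Finset.sum_range_succ', Finset.sum_range_succ' (fun l => t (c l)), ← h1]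
    have : ∑ k ∈ Finset.range n, c (k + 1) * (2 ^ L) ^ (k + 1) + c 0 * (2 ^ L) ^ 0 =
        c 0 + 2 ^ L * ∑ k ∈ Finset.range n, c (k + 1) * (2 ^ L) ^ k := by
      rw [Finset.mul_sum, add_comm, pow_zero, mul_one]
      congr 1
      refine Finset.sum_congr rfl fun k _ => ?_
      ring
    rw [this, t_add_pow _ _ _ h2, add_comm]

/-- The functions `b ↦ t (b * o)` for distinct odd `o` are linearly independent. -/
lemma indep_odd {ι : Type*} (S : Finset ι) (o : ι → ℕ) (hodd : ∀ i ∈ S, Odd (o i))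
    (hinj : ∀ i ∈ S, ∀ j ∈ S, o i = o j → i = j)
    (h : ∀ b : ℕ, ∑ i ∈ S, t (b * o i) = 0) : S = ∅ := by
  classical
  by_contra hne
  obtain ⟨i0, hi0, hmax⟩ := S.exists_max_image o (Finset.nonempty_iff_ne_empty.2 hne)
  set c := o i0 with hc
  have hcodd : Odd c := hodd i0 hi0
  have hcpos : 0 < c := hcodd.pos
  obtain ⟨L, hL⟩ := (eventually_lt_two_pow (c * c)).exists
  -- b0 = ceil (2^L / c)
  set b0 := (2 ^ L + c - 1) / c with hb0
  have hdiv := Nat.div_add_mod (2 ^ L + c - 1) c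
  have hmod := Nat.mod_lt (2 ^ L + c - 1) hcpos
  rw [← hb0] at hdiv
  obtain ⟨r, hr, hrc⟩ : ∃ r, c * b0 = 2 ^ L + r ∧ r < c := ⟨c * b0 - 2 ^ L, by omega, by omega⟩
  have hcc : c ≤ c * c := Nat.le_mul_self c
  have hsmall : ∀ i ∈ S.erase i0, b0 * o i < 2 ^ L := by
    intro i hi
    have hi' := Finset.mem_of_mem_erase hi
    have h1 : o i < c := lt_of_le_of_ne (hmax i hi')
      (fun h => Finset.ne_of_mem_erase hi (hinj i hi' i0 hi0 h))
    have h2 : c ≤ b0 := by
      by_contra h3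
      have : c * b0 ≤ c * c := Nat.mul_le_mul_left _ (by omega)
      omega
    have h3 : b0 * (o i + 1) ≤ b0 * c := Nat.mul_le_mul_left _ h1
    nlinarith
  have key : ∀ b1 : ℕ, t (b1 * c + 1) + t (b1 * c) = 1 := by
    intro b1
    have e1 := h (b0 + 2 ^ L * b1)
    have e2 := h b0
    have e3 := h b1
    rw [← Finset.add_sum_erase S _ hi0] at e1 e2 e3
    have f1 : ∑ i ∈ S.erase i0, t ((b0 + 2 ^ L * b1) * o i) =
        ∑ i ∈ S.erase i0, t (b0 * o i) + ∑ i ∈ S.erase i0, t (b1 * o i) := by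
      rw [← Finset.sum_add_distrib]
      refine Finset.sum_congr rfl fun i hi => ?_
      rw [← t_add_pow L _ _ (hsmall i hi)]
      congr 1
      ring
    have f2 : t ((b0 + 2 ^ L * b1) * c) = t r + t (b1 * c + 1) := by
      rw [← t_add_pow L _ _ (by omega : r < 2 ^ L)]
      congr 1
      nlinarith
    have f3 : t (b0 * c) = t r + 1 := by
      rw [← t_one, ← t_add_pow L _ _ (by omega : r < 2 ^ L)]
      congr 1
      nlinarith
    rw [← hc] at e1 e2 e3
    rw [f1, f2] at e1
    rw [f3] at e2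
    have aux : ∀ u v x y z : ZMod 2, z + x + (u + v) = 0 → z + 1 + u = 0 → y + v = 0 →
        x + y = 1 := by decide
    exact aux _ _ _ _ _ e1 e2 e3
  obtain ⟨j, hj⟩ := hcodd
  have k1 := key c
  have g1 : c * c = 1 + 2 * (0 + 2 * (j * j + j)) := by rw [hj]; ring
  have g2 : c * c + 1 = 0 + 2 * (1 + 2 * (j * j + j)) := by rw [hj]; ring
  rw [g2, g1, t_add_two_mul _ _ (by norm_num), t_add_two_mul _ _ (by norm_num),
    t_add_two_mul _ _ (by norm_num), t_add_two_mul _ _ (by norm_num)] at k1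
  generalize t (j * j + j) = x at k1
  revert x
  decide

/-- Independence for positive numbers whose ratios are not powers of two. -/
lemma indep {ι : Type*} (S : Finset ι) (c : ι → ℕ) (hpos : ∀ i, 0 < c i)
    (hinj : ∀ i j, ∀ u v : ℕ, 2 ^ u * c i = 2 ^ v * c j → i = j)
    (h : ∀ b : ℕ, ∑ i ∈ S, t (b * c i) = 0) : S = ∅ := by
  have hex : ∀ i, ∃ k m : ℕ, Odd m ∧ c i = 2 ^ k * m := fun i =>
    Nat.exists_eq_two_pow_mul_odd (hpos i).ne'
  choose k o ho hk using hex
  refine indep_odd S o (fun i _ => ho i) (fun i _ j _ hij => hinj i j (k j) (k i) ?_) ?_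
  · rw [hk i, hk j, hij]; ring
  · intro b
    rw [← h b]
    refine Finset.sum_congr rfl fun i _ => ?_
    rw [hk i, ← t_pow_mul (k i) (b * o i)]
    congr 1
    ring

end Pool.Agent.MP_b1aeef_nt.H82
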